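import Mathlib

/-!
# Positive square energy: definitions
-/

set_option autoImplicit false

namespace Pool.Agent.SqE

open Finset

/-- The adjacency matrix is symmetric. -/
theorem herm {V : Type} (G : SimpleGraph V) [DecidableRel G.Adj] :
    (G.adjMatrix ℝ).IsHermitian := by
  rw [Matrix.IsHermitian, Matrix.conjTranspose_eq_transpose_of_trivial]
  exact G.transpose_adjMatrix

variable {V : Type} [Fintype V] [DecidableEq V]

/-- The positive square energy: the sum of the squares of the positive eigenvalues of the adjacency
matrix. -/
noncomputable def sPlus (G : SimpleGraph V) [DecidableRel G.Adj] : ℝ :=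
  ∑ i ∈ univ.filter (fun i => 0 < (herm G).eigenvalues i), (herm G).eigenvalues i ^ 2

/-- The number of pairs `(s, t)`, `s ∈ S`, `t ∈ T`, such that `s` and `t` are adjacent. For `T = S`
it is twice the number of edges spanned by `S`, for disjoint `S`, `T` the number of edges between
`S` and `T`. -/
def pairs (G : SimpleGraph V) [DecidableRel G.Adj] (S T : Finset V) : ℕ :=
  ((S ×ˢ T).filter (fun p => G.Adj p.1 p.2)).card

/-- Four properties of every maximal planar graph on `n ≥ 4` vertices. -/
structure Tri (G : SimpleGraph V) [DecidableRel G.Adj] : Prop where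
  /-- there are `3 n - 6` edges -/
  edges : G.edgeFinset.card + 6 = 3 * Fintype.card V
  /-- any `k ≥ 3` vertices span at most `3 k - 6` edges -/
  sparse : ∀ S : Finset V, 3 ≤ S.card → pairs G S S + 12 ≤ 6 * S.card
  /-- any bipartite subgraph on `k ≥ 3` vertices has at most `2 k - 4` edges -/
  bip : ∀ S T : Finset V, Disjoint S T → 3 ≤ S.card + T.card →
    pairs G S T + 4 ≤ 2 * (S.card + T.card)
  /-- if `k ≥ 4` vertices span `3 k - 6` edges (so that they induce a maximal planar graph), each of
  these edges lies in at least two triangles on these vertices -/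
  tight : ∀ S : Finset V, 4 ≤ S.card → pairs G S S + 12 = 6 * S.card →
    ∀ u ∈ S, ∀ v ∈ S, G.Adj u v → 2 ≤ (S.filter (fun w => G.Adj u w ∧ G.Adj v w)).card

end Pool.Agent.SqE
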