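import Mathlib
import Pool.Agent.Lib_helper37.SqE.Defs

/-!
# Positive square energy: proofs
-/

set_option autoImplicit false

namespace Pool.Agent.SqE

open Finset

theorem trace_pow_eq {V : Type} [Fintype V] [DecidableEq V] (A : Matrix V V ℝ)
    (hA : A.IsHermitian) (k : ℕ) :
    (A ^ k).trace = ∑ i, hA.eigenvalues i ^ k := by
  conv_lhs => rw [hA.spectral_theorem]
  rw [← map_pow, Matrix.diagonal_pow, Unitary.conjStarAlgAut_apply, Matrix.trace_mul_comm,
    ← mul_assoc]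
  simp

variable {V : Type} [Fintype V] [DecidableEq V] (G : SimpleGraph V) [DecidableRel G.Adj]

/-- the certificate -/
theorem cert (s n m T q : ℝ) (hs : 0 < s) (hn0 : 0 < n) (hn : n = Fintype.card V)
    (hm0 : 0 ≤ m) (hT0 : 0 ≤ T) (hq0 : 0 ≤ q)
    (h2 : ((G.adjMatrix ℝ) ^ 2).trace = 2 * m) (h3 : ((G.adjMatrix ℝ) ^ 3).trace = T)
    (h4 : ((G.adjMatrix ℝ) ^ 4).trace = q)
    (h : 3 * n * (s ^ 4 * n + 12 * s ^ 2 * m + 4 * s * T + q) ≤ (4 * s * m + T) ^ 2) :
    3 * n ≤ sPlus G := by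
  obtain ⟨l, hl⟩ : ∃ l, l = (herm G).eigenvalues := ⟨_, rfl⟩
  have e1 : ∑ i, l i = 0 := by
    have h1 := trace_pow_eq (G.adjMatrix ℝ) (herm G) 1
    rw [pow_one, SimpleGraph.trace_adjMatrix ℝ G] at h1
    rw [hl, h1]
    exact Finset.sum_congr rfl fun i _ => (pow_one _).symm
  have e2 : ∑ i, l i ^ 2 = 2 * m := by
    rw [← h2, hl]; exact (trace_pow_eq (G.adjMatrix ℝ) (herm G) 2).symm
  have e3 : ∑ i, l i ^ 3 = T := by
    rw [← h3, hl]; exact (trace_pow_eq (G.adjMatrix ℝ) (herm G) 3).symm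
  have e4 : ∑ i, l i ^ 4 = q := by
    rw [← h4, hl]; exact (trace_pow_eq (G.adjMatrix ℝ) (herm G) 4).symm
  obtain ⟨a, ha⟩ : ∃ a : ℝ, a = 4 * s * m + T := ⟨_, rfl⟩
  obtain ⟨b, hb⟩ : ∃ b : ℝ, b = s ^ 4 * n + 12 * s ^ 2 * m + 4 * s * T + q := ⟨_, rfl⟩
  rw [← ha, ← hb] at h
  have ha0 : 0 ≤ a := by rw [ha]; positivity
  have hb0 : 0 < b := by
    have h5 : 0 < s ^ 4 * n := by positivity
    have h6 : 0 ≤ 12 * s ^ 2 * m + 4 * s * T + q := by positivity
    rw [hb]; linarith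
  have hc0 : 0 ≤ a / b := div_nonneg ha0 hb0.le
  obtain ⟨c, hc⟩ : ∃ c : ℝ, c = a / b := ⟨_, rfl⟩
  rw [← hc] at hc0
  have hcb : c * b = a := by rw [hc]; field_simp
  have key : ∀ i, 2 * c * (s ^ 2 * l i + 2 * s * l i ^ 2 + l i ^ 3) -
      c ^ 2 * (s ^ 4 + 4 * s ^ 3 * l i + 6 * s ^ 2 * l i ^ 2 + 4 * s * l i ^ 3 + l i ^ 4) ≤
      if 0 < l i then l i ^ 2 else 0 := by
    intro i
    have h5 : 2 * c * (s ^ 2 * l i + 2 * s * l i ^ 2 + l i ^ 3) -
      c ^ 2 * (s ^ 4 + 4 * s ^ 3 * l i + 6 * s ^ 2 * l i ^ 2 + 4 * s * l i ^ 3 + l i ^ 4) =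
      2 * l i * (c * (s + l i) ^ 2) - (c * (s + l i) ^ 2) ^ 2 := by ring
    have h6 : 0 ≤ c * (s + l i) ^ 2 := mul_nonneg hc0 (sq_nonneg _)
    rw [h5]
    split_ifs with h7
    · nlinarith [sq_nonneg (l i - c * (s + l i) ^ 2)]
    · have h8 : l i * (c * (s + l i) ^ 2) ≤ 0 :=
        mul_nonpos_of_nonpos_of_nonneg (not_lt.mp h7) h6
      nlinarith [sq_nonneg (c * (s + l i) ^ 2)]
  have hsum := Finset.sum_le_sum (fun i (_ : i ∈ (univ : Finset V)) => key i)
  have hrhs : ∑ i, (if 0 < l i then l i ^ 2 else 0) = sPlus G := by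
    rw [sPlus, Finset.sum_filter, hl]
  rw [hrhs] at hsum
  have hlhs : ∑ i, (2 * c * (s ^ 2 * l i + 2 * s * l i ^ 2 + l i ^ 3) -
      c ^ 2 * (s ^ 4 + 4 * s ^ 3 * l i + 6 * s ^ 2 * l i ^ 2 + 4 * s * l i ^ 3 + l i ^ 4)) =
      2 * c * a - c ^ 2 * b := by
    rw [Finset.sum_sub_distrib, ← Finset.mul_sum, ← Finset.mul_sum]
    simp only [Finset.sum_add_distrib, ← Finset.mul_sum]
    rw [e1, e2, e3, e4, Finset.sum_const, Finset.card_univ, nsmul_eq_mul, ← hn, ha, hb]
    ring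
  rw [hlhs] at hsum
  have h9 : 2 * c * a - c ^ 2 * b = c * a := by
    have : c ^ 2 * b = c * a := by rw [pow_two, mul_assoc, hcb]
    rw [this]; ring
  rw [h9] at hsum
  have h10 : 3 * n ≤ c * a := by
    have h11 : c * a = a ^ 2 / b := by rw [hc]; ring
    rw [h11, le_div_iff₀ hb0]
    exact h
  linarith

/-- the neighbours -/
def nb (u : V) : Finset V := univ.filter (fun x => G.Adj u x)

/-- the number of common neighbours -/
def cn (u w : V) : ℕ := (univ.filter (fun x => G.Adj u x ∧ G.Adj w x)).card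

/-- the degree -/
def dg (u : V) : ℕ := (nb G u).card

theorem mem_nb (u x : V) : x ∈ nb G u ↔ G.Adj u x := by simp [nb]

theorem dg_eq (u : V) : dg G u = G.degree u := by
  rw [dg, nb, ← SimpleGraph.neighborFinset_eq_filter, SimpleGraph.card_neighborFinset_eq_degree]

theorem cn_self (u : V) : cn G u u = dg G u := by
  simp [cn, dg, nb]

theorem cn_comm (u w : V) : cn G u w = cn G w u := by
  unfold cn
  congr 1
  ext x
  simp [and_comm]

theorem sq_apply (u w : V) : (G.adjMatrix ℝ * G.adjMatrix ℝ) u w = (cn G u w : ℝ) := by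
  rw [Matrix.mul_apply, cn, Finset.card_filter]
  push_cast
  apply Finset.sum_congr rfl
  intro x _
  rw [SimpleGraph.adjMatrix_apply, SimpleGraph.adjMatrix_apply]
  by_cases h1 : G.Adj u x <;> by_cases h2 : G.Adj w x <;> simp [h1, h2, G.adj_comm x w]

theorem tr2 : ((G.adjMatrix ℝ) ^ 2).trace = ∑ u, (dg G u : ℝ) := by
  rw [pow_two, Matrix.trace]
  apply Finset.sum_congr rfl
  intro u _
  rw [Matrix.diag_apply, sq_apply, cn_self]

theorem tr3 : ((G.adjMatrix ℝ) ^ 3).trace = ∑ u, ∑ w ∈ nb G u, (cn G u w : ℝ) := by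
  rw [pow_succ, pow_two, Matrix.trace]
  apply Finset.sum_congr rfl
  intro u _
  rw [Matrix.diag_apply, Matrix.mul_apply, nb, Finset.sum_filter]
  apply Finset.sum_congr rfl
  intro w _
  rw [sq_apply, SimpleGraph.adjMatrix_apply]
  by_cases h1 : G.Adj u w <;> simp [h1, G.adj_comm w u]

theorem tr4 : ((G.adjMatrix ℝ) ^ 4).trace = ∑ u, ∑ w, (cn G u w : ℝ) ^ 2 := by
  have h : (G.adjMatrix ℝ) ^ 4 =
      (G.adjMatrix ℝ * G.adjMatrix ℝ) * (G.adjMatrix ℝ * G.adjMatrix ℝ) := by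
    rw [← pow_two, ← pow_two, ← pow_mul]
  rw [h, Matrix.trace]
  apply Finset.sum_congr rfl
  intro u _
  rw [Matrix.diag_apply, Matrix.mul_apply]
  apply Finset.sum_congr rfl
  intro w _
  rw [sq_apply, sq_apply, cn_comm G w u, pow_two]

theorem sum_dg : ∑ u, dg G u = 2 * G.edgeFinset.card := by
  rw [← SimpleGraph.sum_degrees_eq_twice_card_edges]
  exact Finset.sum_congr rfl fun u _ => dg_eq G u

/-- the number of walks of length two which start at `u` -/
theorem row_sum (u : V) : ∑ w, cn G u w = ∑ x ∈ nb G u, dg G x := by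
  simp only [cn, dg, nb, Finset.card_filter, Finset.sum_filter]
  rw [Finset.sum_comm]
  apply Finset.sum_congr rfl
  intro x _
  by_cases h1 : G.Adj u x
  · simp only [h1, true_and, if_true]
    apply Finset.sum_congr rfl
    intro w _
    simp [G.adj_comm w x]
  · simp [h1]

theorem sum_nb_dg : ∑ u, ∑ x ∈ nb G u, dg G x = ∑ u, dg G u ^ 2 := by
  have h : ∀ u, ∑ x ∈ nb G u, dg G x = ∑ x, if G.Adj u x then dg G x else 0 := by
    intro u
    rw [nb, Finset.sum_filter]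
  simp only [h]
  rw [Finset.sum_comm]
  apply Finset.sum_congr rfl
  intro x _
  rw [← Finset.sum_filter, Finset.sum_const, smul_eq_mul, pow_two]
  congr 1
  rw [dg, nb]
  congr 1
  ext u
  simp [G.adj_comm]

/-! ### pairs -/

theorem pairs_eq (S T : Finset V) :
    pairs G S T = ∑ s ∈ S, (T.filter (fun t => G.Adj s t)).card := by
  rw [pairs, Finset.card_filter, Finset.sum_product]
  apply Finset.sum_congr rfl
  intro s _
  rw [Finset.card_filter]

theorem pairs_comm (S T : Finset V) : pairs G S T = pairs G T S := by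
  rw [pairs, pairs, Finset.card_filter, Finset.card_filter, Finset.sum_product_right,
    Finset.sum_product]
  apply Finset.sum_congr rfl
  intro s _
  apply Finset.sum_congr rfl
  intro t _
  simp [G.adj_comm]

theorem pairs_univ (S : Finset V) : pairs G S univ = ∑ s ∈ S, dg G s := by
  rw [pairs_eq]; rfl

theorem pairs_add (S T : Finset V) : pairs G S T + pairs G S Tᶜ = ∑ s ∈ S, dg G s := by
  rw [pairs_eq, pairs_eq, ← Finset.sum_add_distrib]
  apply Finset.sum_congr rfl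
  intro s _
  rw [dg, nb, ← Finset.card_union_of_disjoint]
  · congr 1
    ext x
    simp only [Finset.mem_union, Finset.mem_filter, Finset.mem_compl, Finset.mem_univ, true_and]
    tauto
  · rw [Finset.disjoint_left]
    intro x hx hx'
    rw [Finset.mem_filter] at hx hx'
    exact (Finset.mem_compl.mp hx'.1) hx.1

/-- the edges outside of a set -/
theorem pairs_compl (X : Finset V) :
    pairs G Xᶜ Xᶜ + 2 * ∑ x ∈ X, dg G x = 2 * G.edgeFinset.card + pairs G X X := by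
  have h1 := pairs_add G X X
  have h2 := pairs_add G Xᶜ X
  have h3 := pairs_comm G X Xᶜ
  have h4 : ∑ x ∈ X, dg G x + ∑ x ∈ Xᶜ, dg G x = ∑ x, dg G x := Finset.sum_add_sum_compl X _
  have h5 := sum_dg G
  omega

end Pool.Agent.SqE
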