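import Mathlib
import Pool.Agent.Lib_helper37.SqE.Main

/-!
# Positive square energy: closed walks of length four
-/

set_option autoImplicit false

namespace Pool.Agent.SqE

open Finset

variable {V : Type} [Fintype V] [DecidableEq V] (G : SimpleGraph V) [DecidableRel G.Adj]

theorem deg_ge (h : Tri G) (hn : 4 ≤ Fintype.card V) (u : V) : 3 ≤ dg G u := by
  have h1 := pairs_compl G {u}
  have h2 := h.sparse ({u}ᶜ) (by rw [Finset.card_compl, Finset.card_singleton]; omega)
  have h3 : pairs G {u} {u} = 0 := by simp [pairs]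
  rw [Finset.sum_singleton, h3] at h1
  rw [Finset.card_compl, Finset.card_singleton] at h2
  have h4 := h.edges
  omega

theorem indep (h : Tri G) (hn : 5 ≤ Fintype.card V) {v w : V} (hv : dg G v = 3)
    (hw : dg G w = 3) : ¬ G.Adj v w := by
  intro hadj
  have h1 := pairs_compl G {v, w}
  have h0 : ({v, w} : Finset V).card = 2 := Finset.card_pair hadj.ne
  have h2 := h.sparse ({v, w}ᶜ) (by rw [Finset.card_compl, h0]; omega)
  have h3 : 0 < pairs G {v, w} {v, w} := by
    rw [pairs, Finset.card_pos]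
    exact ⟨(v, w), by simp [hadj]⟩
  rw [Finset.sum_pair hadj.ne] at h1
  rw [Finset.card_compl, h0] at h2
  have h4 := h.edges
  omega

/-- the vertices of degree three -/
def T3 : Finset V := univ.filter (fun v => dg G v = 3)

theorem mem_T3 (v : V) : v ∈ T3 G ↔ dg G v = 3 := by simp [T3]

theorem pairs_T3 (h : Tri G) (hn : 5 ≤ Fintype.card V) : pairs G (T3 G) (T3 G) = 0 := by
  rw [pairs, Finset.card_eq_zero, Finset.filter_eq_empty_iff]
  intro p hp
  rw [Finset.mem_product, mem_T3, mem_T3] at hp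
  exact indep G h hn hp.1 hp.2

theorem sum_T3 : ∑ x ∈ T3 G, dg G x = 3 * (T3 G).card := by
  rw [Finset.sum_congr rfl (fun x hx => (mem_T3 G x).mp hx), Finset.sum_const, smul_eq_mul,
    mul_comm]

theorem card_T3 (h : Tri G) (hn : 5 ≤ Fintype.card V) :
    3 * (T3 G).card + 4 ≤ 2 * Fintype.card V := by
  have h1 := h.bip (T3 G) (T3 G)ᶜ disjoint_compl_right (by
    rw [Finset.card_add_card_compl]; omega)
  have h2 := pairs_add G (T3 G) (T3 G)
  rw [pairs_T3 G h hn, sum_T3, zero_add] at h2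
  rw [Finset.card_add_card_compl, h2] at h1
  exact h1

theorem two_cn (h : Tri G) (hn : 4 ≤ Fintype.card V) {u w : V} (huw : G.Adj u w) :
    2 ≤ cn G u w := by
  have h1 := h.edges
  have h2 := sum_dg G
  exact h.tight univ (by rw [Finset.card_univ]; exact hn)
    (by rw [pairs_univ, h2, Finset.card_univ]; omega) u (mem_univ _) w (mem_univ _) huw

theorem cn_split (X : Finset V) (u w : V) :
    cn G u w = (X.filter (fun x => G.Adj u x ∧ G.Adj w x)).card +
      (Xᶜ.filter (fun x => G.Adj u x ∧ G.Adj w x)).card := by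
  rw [cn, ← Finset.card_union_of_disjoint]
  · congr 1
    ext x
    simp only [Finset.mem_union, Finset.mem_filter, Finset.mem_compl, Finset.mem_univ, true_and]
    tauto
  · rw [Finset.disjoint_left]
    intro x hx hx'
    rw [Finset.mem_filter] at hx hx'
    exact (Finset.mem_compl.mp hx'.1) hx.1

theorem cn_ge (h : Tri G) (hn : 8 ≤ Fintype.card V) {u w : V} (huw : G.Adj u w) :
    2 + ((T3 G).filter (fun x => G.Adj u x ∧ G.Adj w x)).card ≤ cn G u w := by
  have hc := card_T3 G h (by omega)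
  by_cases hu : u ∈ T3 G
  · have h1 : (T3 G).filter (fun x => G.Adj u x ∧ G.Adj w x) = ∅ := by
      rw [Finset.filter_eq_empty_iff]
      intro x hx hx'
      exact indep G h (by omega) ((mem_T3 G u).mp hu) ((mem_T3 G x).mp hx) hx'.1
    rw [h1, Finset.card_empty, add_zero]
    exact two_cn G h (by omega) huw
  · by_cases hw : w ∈ T3 G
    · have h1 : (T3 G).filter (fun x => G.Adj u x ∧ G.Adj w x) = ∅ := by
        rw [Finset.filter_eq_empty_iff]
        intro x hx hx'
        exact indep G h (by omega) ((mem_T3 G w).mp hw) ((mem_T3 G x).mp hx) hx'.2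
      rw [h1, Finset.card_empty, add_zero]
      exact two_cn G h (by omega) huw
    · have h2 := h.edges
      have h3 := pairs_compl G (T3 G)
      rw [pairs_T3 G h (by omega), sum_T3] at h3
      have h4 := Finset.card_add_card_compl (T3 G)
      have h5 := h.tight (T3 G)ᶜ (by omega) (by omega) u (Finset.mem_compl.mpr hu) w
        (Finset.mem_compl.mpr hw) huw
      rw [cn_split G (T3 G) u w]
      omega

/-- the number of ordered triangles -/
def TT : ℕ := ∑ u, ∑ w ∈ nb G u, cn G u w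

theorem sum_T3_cn (h : Tri G) (hn : 8 ≤ Fintype.card V) :
    6 * (T3 G).card ≤
      ∑ u, ∑ w ∈ nb G u, ((T3 G).filter (fun x => G.Adj u x ∧ G.Adj w x)).card := by
  have h1 : ∑ u, ∑ w ∈ nb G u, ((T3 G).filter (fun x => G.Adj u x ∧ G.Adj w x)).card =
      ∑ x ∈ T3 G, ∑ u ∈ nb G x, cn G x u := by
    simp only [nb, cn, Finset.card_filter, Finset.sum_filter]
    have h2 : ∀ u : V, (∑ w, if G.Adj u w then
        (∑ x ∈ T3 G, if G.Adj u x ∧ G.Adj w x then 1 else 0) else 0) =
        ∑ x ∈ T3 G, ∑ w, if G.Adj u w ∧ G.Adj u x ∧ G.Adj w x then 1 else 0 := by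
      intro u
      rw [Finset.sum_comm]
      apply Finset.sum_congr rfl
      intro w _
      by_cases h3 : G.Adj u w <;> simp [h3]
    rw [Finset.sum_congr rfl (fun u _ => h2 u), Finset.sum_comm]
    apply Finset.sum_congr rfl
    intro x _
    apply Finset.sum_congr rfl
    intro u _
    by_cases h3 : G.Adj x u
    · rw [if_pos h3]
      apply Finset.sum_congr rfl
      intro w _
      have h4 := h3.symm
      by_cases h5 : G.Adj u w <;> by_cases h6 : G.Adj x w <;> simp [h4, h5, h6, G.adj_comm w x]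
    · rw [if_neg h3]
      apply Finset.sum_eq_zero
      intro w _
      have h4 : ¬ G.Adj u x := fun h5 => h3 h5.symm
      simp [h4]
  rw [h1]
  have h2 : ∀ x ∈ T3 G, 6 ≤ ∑ u ∈ nb G x, cn G x u := by
    intro x hx
    have h3 : ∑ u ∈ nb G x, 2 ≤ ∑ u ∈ nb G x, cn G x u := by
      apply Finset.sum_le_sum
      intro u hu
      exact two_cn G h (by omega) ((mem_nb G x u).mp hu)
    rw [Finset.sum_const, smul_eq_mul] at h3
    have h4 : (nb G x).card = 3 := (mem_T3 G x).mp hx
    omega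
  calc 6 * (T3 G).card = ∑ x ∈ T3 G, 6 := by rw [Finset.sum_const, smul_eq_mul, mul_comm]
    _ ≤ _ := Finset.sum_le_sum h2

theorem TT_ge (h : Tri G) (hn : 8 ≤ Fintype.card V) :
    4 * G.edgeFinset.card + 6 * (T3 G).card ≤ TT G := by
  have h1 : ∑ u, ∑ w ∈ nb G u, (2 + ((T3 G).filter (fun x => G.Adj u x ∧ G.Adj w x)).card) ≤
      TT G := by
    apply Finset.sum_le_sum
    intro u _
    apply Finset.sum_le_sum
    intro w hw
    exact cn_ge G h hn ((mem_nb G u w).mp hw)
  simp only [Finset.sum_add_distrib] at h1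
  have h2 : ∑ u, ∑ w ∈ nb G u, 2 = 4 * G.edgeFinset.card := by
    simp only [Finset.sum_const, smul_eq_mul]
    rw [← Finset.sum_mul]
    have h3 := sum_dg G
    unfold dg at h3
    rw [h3]; ring
  have h3 := sum_T3_cn G h hn
  omega

theorem cn_le (u w : V) : cn G u w ≤ dg G u := by
  apply Finset.card_le_card
  intro x hx
  rw [Finset.mem_filter] at hx
  rw [mem_nb]
  exact hx.2.1

theorem cn_lt {u w : V} (huw : G.Adj u w) : cn G u w + 1 ≤ dg G u := by
  have h1 : cn G u w ≤ ((nb G u).erase w).card := by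
    apply Finset.card_le_card
    intro x hx
    rw [Finset.mem_filter] at hx
    rw [Finset.mem_erase, mem_nb]
    exact ⟨fun h => (h ▸ hx.2.2).ne rfl, hx.2.1⟩
  have h2 : w ∈ nb G u := (mem_nb G u w).mpr huw
  rw [Finset.card_erase_of_mem h2] at h1
  have h3 : 0 < (nb G u).card := Finset.card_pos.mpr ⟨w, h2⟩
  unfold dg
  omega

/-- the vertices at distance at least two -/
def RR (u : V) : Finset V := univ.filter (fun w => w ≠ u ∧ ¬ G.Adj u w)

theorem split (u : V) (f : V → ℝ) :
    ∑ w, f w = f u + ∑ w ∈ nb G u, f w + ∑ w ∈ RR G u, f w := by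
  have h1 := Finset.sum_filter_add_sum_filter_not univ (fun w => G.Adj u w) f
  have h2 : univ.filter (fun w => ¬ G.Adj u w) = insert u (RR G u) := by
    ext w
    simp only [RR, Finset.mem_filter, Finset.mem_univ, true_and, Finset.mem_insert]
    constructor
    · intro h3
      by_cases h4 : w = u
      · exact Or.inl h4
      · exact Or.inr ⟨h4, h3⟩
    · rintro (h3 | h3)
      · rw [h3]; exact G.loopless.irrefl u
      · exact h3.2
  have h3 : u ∉ RR G u := by simp [RR]
  rw [h2, Finset.sum_insert h3] at h1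
  rw [← h1, nb]
  ring

theorem nonadj (h : Tri G) (hn : 4 ≤ Fintype.card V) (u : V) :
    ∑ w ∈ (RR G u).filter (fun w => 3 ≤ cn G u w), ((cn G u w : ℝ) - 2) ≤ (dg G u : ℝ) - 2 := by
  obtain ⟨W, hW⟩ : ∃ W, W = (RR G u).filter (fun w => 3 ≤ cn G u w) := ⟨_, rfl⟩
  rw [← hW]
  have hWR : ∀ w ∈ W, w ≠ u ∧ ¬ G.Adj u w := by
    intro w hw
    rw [hW, Finset.mem_filter, RR, Finset.mem_filter] at hw
    exact hw.1.2
  have huW : u ∉ W := fun hu => (hWR u hu).1 rfl
  have hd : Disjoint (insert u W) (nb G u) := by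
    rw [Finset.disjoint_left]
    intro x hx hx'
    rw [mem_nb] at hx'
    rw [Finset.mem_insert] at hx
    rcases hx with hx | hx
    · rw [hx] at hx'; exact hx'.ne rfl
    · exact (hWR x hx).2 hx'
  have h3 := deg_ge G h hn u
  have h1 := h.bip (insert u W) (nb G u) hd (by unfold dg at h3; omega)
  rw [pairs_eq, Finset.sum_insert huW, Finset.card_insert_of_notMem huW] at h1
  have h4 : ((nb G u).filter (fun t => G.Adj u t)).card = dg G u := by
    rw [dg]
    congr 1
    ext x
    simp [nb]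
  have h5 : ∑ w ∈ W, ((nb G u).filter (fun t => G.Adj w t)).card = ∑ w ∈ W, cn G u w := by
    apply Finset.sum_congr rfl
    intro w _
    rw [nb, Finset.filter_filter, cn]
  rw [h4, h5] at h1
  have h6 : ((dg G u : ℝ) + ∑ w ∈ W, (cn G u w : ℝ)) + 4 ≤ 2 * ((W.card : ℝ) + 1 + dg G u) := by
    have h7 : dg G u + ∑ w ∈ W, cn G u w + 4 ≤ 2 * (W.card + 1 + dg G u) := h1
    exact_mod_cast h7
  rw [Finset.sum_sub_distrib, Finset.sum_const, nsmul_eq_mul]
  linarith

theorem row_bound (h : Tri G) (hn : 4 ≤ Fintype.card V) (u : V) :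
    ∑ w, (cn G u w : ℝ) ^ 2 ≤ ((dg G u : ℝ) - 1) * ∑ w ∈ nb G u, (cn G u w : ℝ) -
      2 * dg G u + 2 * ∑ x ∈ nb G u, (dg G x : ℝ) := by
  have hd3 : (3 : ℝ) ≤ dg G u := by exact_mod_cast deg_ge G h hn u
  have h1 := split G u (fun w => (cn G u w : ℝ) ^ 2)
  have h2 := split G u (fun w => (cn G u w : ℝ))
  have h3 : ∑ w, (cn G u w : ℝ) = ∑ x ∈ nb G u, (dg G x : ℝ) := by
    exact_mod_cast row_sum G u
  rw [h3] at h2
  simp only [cn_self] at h1 h2
  have h4 : ∑ w ∈ nb G u, (cn G u w : ℝ) ^ 2 ≤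
      ∑ w ∈ nb G u, (((dg G u : ℝ) + 1) * cn G u w - 2 * ((dg G u : ℝ) - 1)) := by
    apply Finset.sum_le_sum
    intro w hw
    have h5 := (mem_nb G u w).mp hw
    have h6 : (2 : ℝ) ≤ cn G u w := by exact_mod_cast two_cn G h hn h5
    have h7 : (cn G u w : ℝ) + 1 ≤ dg G u := by exact_mod_cast cn_lt G h5
    nlinarith [mul_nonneg (sub_nonneg.mpr h6) (sub_nonneg.mpr h7)]
  rw [Finset.sum_sub_distrib, ← Finset.mul_sum, Finset.sum_const, nsmul_eq_mul] at h4
  have hcard : ((nb G u).card : ℝ) = dg G u := rfl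
  rw [hcard] at h4
  have h8 : ∑ w ∈ RR G u, (cn G u w : ℝ) ^ 2 ≤ ∑ w ∈ RR G u, (2 * (cn G u w : ℝ) +
      if 3 ≤ cn G u w then (dg G u : ℝ) * ((cn G u w : ℝ) - 2) else 0) := by
    apply Finset.sum_le_sum
    intro w _
    split_ifs with h9
    · have h10 : (3 : ℝ) ≤ cn G u w := by exact_mod_cast h9
      have h11 : (cn G u w : ℝ) ≤ dg G u := by exact_mod_cast cn_le G u w
      nlinarith [mul_nonneg (sub_nonneg.mpr h11) (by linarith : (0 : ℝ) ≤ (cn G u w : ℝ) - 2)]
    · have h10 : (cn G u w : ℝ) ≤ 2 := by exact_mod_cast (by omega : cn G u w ≤ 2)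
      have h11 : (0 : ℝ) ≤ cn G u w := Nat.cast_nonneg _
      nlinarith [mul_nonneg h11 (sub_nonneg.mpr h10)]
  rw [Finset.sum_add_distrib, ← Finset.mul_sum, ← Finset.sum_filter, ← Finset.mul_sum] at h8
  have h12 := nonadj G h hn u
  have h13 := mul_le_mul_of_nonneg_left h12 (by linarith : (0 : ℝ) ≤ dg G u)
  rw [h1]
  nlinarith

end Pool.Agent.SqE
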