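import Mathlib

/-!
# Positive square energy: numbers
-/

set_option autoImplicit false

namespace Pool.Agent.SqE

theorem row6 (n t : ℝ) (hn : 12 ≤ n) (h3 : 0 ≤ t) (h3' : 3 * t ≤ 2 * n - 4) :
    48 * ((9 / 4) + 1) ≤ n * (12 * (9 / 4) + 27 - 3 * 6) ∧
    0 ≤ 16 * ((9 / 4) + 1) ^ 2 * (3 * n - 6) ^ 2 -
      3 * n * ((9 / 4) ^ 4 * n + (12 * (9 / 4) ^ 2 + 16 * (9 / 4) - 8) * (3 * n - 6)) -
      n * ((24 * 6 + 288) * n - 144 * (6 + 4)) +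
      t * (n * (72 * (9 / 4) + 207 - 21 * 6) - 288 * ((9 / 4) + 1)) + 36 * t ^ 2 := by
  have h4 : 0 ≤ t * (n - 12) := mul_nonneg h3 (by linarith)
  have h7 : 0 ≤ (n - 12) * (n - 12) := mul_nonneg (by linarith) (by linarith)
  exact ⟨by linarith, by nlinarith [sq_nonneg t]⟩

theorem row7 (n t : ℝ) (hn : 13 ≤ n) (h3 : 0 ≤ t) (h3' : 3 * t ≤ 2 * n - 4) :
    48 * ((9 / 4) + 1) ≤ n * (12 * (9 / 4) + 27 - 3 * 7) ∧
    0 ≤ 16 * ((9 / 4) + 1) ^ 2 * (3 * n - 6) ^ 2 -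
      3 * n * ((9 / 4) ^ 4 * n + (12 * (9 / 4) ^ 2 + 16 * (9 / 4) - 8) * (3 * n - 6)) -
      n * ((24 * 7 + 288) * n - 144 * (7 + 4)) +
      t * (n * (72 * (9 / 4) + 207 - 21 * 7) - 288 * ((9 / 4) + 1)) + 36 * t ^ 2 := by
  have h4 : 0 ≤ t * (n - 13) := mul_nonneg h3 (by linarith)
  have h7 : 0 ≤ (n - 13) * (n - 13) := mul_nonneg (by linarith) (by linarith)
  exact ⟨by linarith, by nlinarith [sq_nonneg t]⟩

theorem row8 (n t : ℝ) (hn : 15 ≤ n) (h3 : 0 ≤ t) (h3' : 3 * t ≤ 2 * n - 4) :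
    48 * ((5 / 2) + 1) ≤ n * (12 * (5 / 2) + 27 - 3 * 8) ∧
    0 ≤ 16 * ((5 / 2) + 1) ^ 2 * (3 * n - 6) ^ 2 -
      3 * n * ((5 / 2) ^ 4 * n + (12 * (5 / 2) ^ 2 + 16 * (5 / 2) - 8) * (3 * n - 6)) -
      n * ((24 * 8 + 288) * n - 144 * (8 + 4)) +
      t * (n * (72 * (5 / 2) + 207 - 21 * 8) - 288 * ((5 / 2) + 1)) + 36 * t ^ 2 := by
  have h4 : 0 ≤ t * (n - 15) := mul_nonneg h3 (by linarith)
  have h7 : 0 ≤ (n - 15) * (n - 15) := mul_nonneg (by linarith) (by linarith)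
  exact ⟨by linarith, by nlinarith [sq_nonneg t]⟩

theorem row9 (n t : ℝ) (hn : 16 ≤ n) (h3 : 0 ≤ t) (h3' : 3 * t ≤ 2 * n - 4) :
    48 * ((5 / 2) + 1) ≤ n * (12 * (5 / 2) + 27 - 3 * 9) ∧
    0 ≤ 16 * ((5 / 2) + 1) ^ 2 * (3 * n - 6) ^ 2 -
      3 * n * ((5 / 2) ^ 4 * n + (12 * (5 / 2) ^ 2 + 16 * (5 / 2) - 8) * (3 * n - 6)) -
      n * ((24 * 9 + 288) * n - 144 * (9 + 4)) +
      t * (n * (72 * (5 / 2) + 207 - 21 * 9) - 288 * ((5 / 2) + 1)) + 36 * t ^ 2 := by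
  have h4 : 0 ≤ t * (n - 16) := mul_nonneg h3 (by linarith)
  have h7 : 0 ≤ (n - 16) * (n - 16) := mul_nonneg (by linarith) (by linarith)
  exact ⟨by linarith, by nlinarith [sq_nonneg t]⟩

theorem row10 (n t : ℝ) (hn : 18 ≤ n) (h3 : 0 ≤ t) (h3' : 3 * t ≤ 2 * n - 4) :
    48 * ((5 / 2) + 1) ≤ n * (12 * (5 / 2) + 27 - 3 * 10) ∧
    0 ≤ 16 * ((5 / 2) + 1) ^ 2 * (3 * n - 6) ^ 2 -
      3 * n * ((5 / 2) ^ 4 * n + (12 * (5 / 2) ^ 2 + 16 * (5 / 2) - 8) * (3 * n - 6)) -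
      n * ((24 * 10 + 288) * n - 144 * (10 + 4)) +
      t * (n * (72 * (5 / 2) + 207 - 21 * 10) - 288 * ((5 / 2) + 1)) + 36 * t ^ 2 := by
  have h4 : 0 ≤ t * (n - 18) := mul_nonneg h3 (by linarith)
  have h7 : 0 ≤ (n - 18) * (n - 18) := mul_nonneg (by linarith) (by linarith)
  exact ⟨by linarith, by nlinarith [sq_nonneg t]⟩

theorem row11 (n t : ℝ) (hn : 20 ≤ n) (h3 : 0 ≤ t) (h3' : 3 * t ≤ 2 * n - 4) :
    48 * ((13 / 5) + 1) ≤ n * (12 * (13 / 5) + 27 - 3 * 11) ∧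
    0 ≤ 16 * ((13 / 5) + 1) ^ 2 * (3 * n - 6) ^ 2 -
      3 * n * ((13 / 5) ^ 4 * n + (12 * (13 / 5) ^ 2 + 16 * (13 / 5) - 8) * (3 * n - 6)) -
      n * ((24 * 11 + 288) * n - 144 * (11 + 4)) +
      t * (n * (72 * (13 / 5) + 207 - 21 * 11) - 288 * ((13 / 5) + 1)) + 36 * t ^ 2 := by
  have h4 : 0 ≤ t * (n - 20) := mul_nonneg h3 (by linarith)
  have h7 : 0 ≤ (n - 20) * (n - 20) := mul_nonneg (by linarith) (by linarith)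
  exact ⟨by linarith, by nlinarith [sq_nonneg t]⟩

theorem row12 (n t : ℝ) (hn : 23 ≤ n) (h3 : 0 ≤ t) (h3' : 3 * t ≤ 2 * n - 4) :
    48 * ((8 / 3) + 1) ≤ n * (12 * (8 / 3) + 27 - 3 * 12) ∧
    0 ≤ 16 * ((8 / 3) + 1) ^ 2 * (3 * n - 6) ^ 2 -
      3 * n * ((8 / 3) ^ 4 * n + (12 * (8 / 3) ^ 2 + 16 * (8 / 3) - 8) * (3 * n - 6)) -
      n * ((24 * 12 + 288) * n - 144 * (12 + 4)) +
      t * (n * (72 * (8 / 3) + 207 - 21 * 12) - 288 * ((8 / 3) + 1)) + 36 * t ^ 2 := by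
  have h4 : 0 ≤ t * (n - 23) := mul_nonneg h3 (by linarith)
  have h7 : 0 ≤ (n - 23) * (n - 23) := mul_nonneg (by linarith) (by linarith)
  exact ⟨by linarith, by nlinarith [sq_nonneg t]⟩

theorem row13 (n t : ℝ) (hn : 28 ≤ n) (h3 : 0 ≤ t) (h3' : 3 * t ≤ 2 * n - 4) :
    48 * ((14 / 5) + 1) ≤ n * (12 * (14 / 5) + 27 - 3 * 13) ∧
    0 ≤ 16 * ((14 / 5) + 1) ^ 2 * (3 * n - 6) ^ 2 -
      3 * n * ((14 / 5) ^ 4 * n + (12 * (14 / 5) ^ 2 + 16 * (14 / 5) - 8) * (3 * n - 6)) -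
      n * ((24 * 13 + 288) * n - 144 * (13 + 4)) +
      t * (n * (72 * (14 / 5) + 207 - 21 * 13) - 288 * ((14 / 5) + 1)) + 36 * t ^ 2 := by
  have h4 : 0 ≤ t * (n - 28) := mul_nonneg h3 (by linarith)
  have h7 : 0 ≤ (n - 28) * (n - 28) := mul_nonneg (by linarith) (by linarith)
  exact ⟨by linarith, by nlinarith [sq_nonneg t]⟩

theorem row14 (n t : ℝ) (hn : 34 ≤ n) (h3 : 0 ≤ t) (h3' : 3 * t ≤ 2 * n - 4) :
    48 * ((14 / 5) + 1) ≤ n * (12 * (14 / 5) + 27 - 3 * 14) ∧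
    0 ≤ 16 * ((14 / 5) + 1) ^ 2 * (3 * n - 6) ^ 2 -
      3 * n * ((14 / 5) ^ 4 * n + (12 * (14 / 5) ^ 2 + 16 * (14 / 5) - 8) * (3 * n - 6)) -
      n * ((24 * 14 + 288) * n - 144 * (14 + 4)) +
      t * (n * (72 * (14 / 5) + 207 - 21 * 14) - 288 * ((14 / 5) + 1)) + 36 * t ^ 2 := by
  have h4 : 0 ≤ t * (n - 34) := mul_nonneg h3 (by linarith)
  have h7 : 0 ≤ (n - 34) * (n - 34) := mul_nonneg (by linarith) (by linarith)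
  exact ⟨by linarith, by nlinarith [sq_nonneg t]⟩

theorem row15 (n t : ℝ) (hn : 44 ≤ n) (h3 : 0 ≤ t) (h3' : 3 * t ≤ 2 * n - 4) :
    48 * ((14 / 5) + 1) ≤ n * (12 * (14 / 5) + 27 - 3 * 15) ∧
    0 ≤ 16 * ((14 / 5) + 1) ^ 2 * (3 * n - 6) ^ 2 -
      3 * n * ((14 / 5) ^ 4 * n + (12 * (14 / 5) ^ 2 + 16 * (14 / 5) - 8) * (3 * n - 6)) -
      n * ((24 * 15 + 288) * n - 144 * (15 + 4)) +
      t * (n * (72 * (14 / 5) + 207 - 21 * 15) - 288 * ((14 / 5) + 1)) + 36 * t ^ 2 := by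
  have h4 : 0 ≤ t * (n - 44) := mul_nonneg h3 (by linarith)
  have h7 : 0 ≤ (n - 44) * (n - 44) := mul_nonneg (by linarith) (by linarith)
  exact ⟨by linarith, by nlinarith [sq_nonneg t]⟩

theorem row16 (n t : ℝ) (hn : 62 ≤ n) (h3 : 0 ≤ t) (h3' : 3 * t ≤ 2 * n - 4) :
    48 * (3 + 1) ≤ n * (12 * 3 + 27 - 3 * 16) ∧
    0 ≤ 16 * (3 + 1) ^ 2 * (3 * n - 6) ^ 2 -
      3 * n * (3 ^ 4 * n + (12 * 3 ^ 2 + 16 * 3 - 8) * (3 * n - 6)) -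
      n * ((24 * 16 + 288) * n - 144 * (16 + 4)) +
      t * (n * (72 * 3 + 207 - 21 * 16) - 288 * (3 + 1)) + 36 * t ^ 2 := by
  have h4 : 0 ≤ t * (n - 62) := mul_nonneg h3 (by linarith)
  have h7 : 0 ≤ (n - 62) * (n - 62) := mul_nonneg (by linarith) (by linarith)
  exact ⟨by linarith, by nlinarith [sq_nonneg t]⟩

theorem row17 (n t : ℝ) (hn : 105 ≤ n) (h3 : 0 ≤ t) (h3' : 3 * t ≤ 2 * n - 4) :
    48 * (3 + 1) ≤ n * (12 * 3 + 27 - 3 * 17) ∧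
    0 ≤ 16 * (3 + 1) ^ 2 * (3 * n - 6) ^ 2 -
      3 * n * (3 ^ 4 * n + (12 * 3 ^ 2 + 16 * 3 - 8) * (3 * n - 6)) -
      n * ((24 * 17 + 288) * n - 144 * (17 + 4)) +
      t * (n * (72 * 3 + 207 - 21 * 17) - 288 * (3 + 1)) + 36 * t ^ 2 := by
  have h4 : 0 ≤ t * (n - 105) := mul_nonneg h3 (by linarith)
  have h7 : 0 ≤ (n - 105) * (n - 105) := mul_nonneg (by linarith) (by linarith)
  exact ⟨by linarith, by nlinarith [sq_nonneg t]⟩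

theorem row18 (n t : ℝ) (hn : 324 ≤ n) (h3 : 0 ≤ t) (h3' : 3 * t ≤ 2 * n - 4) :
    48 * ((31 / 10) + 1) ≤ n * (12 * (31 / 10) + 27 - 3 * 18) ∧
    0 ≤ 16 * ((31 / 10) + 1) ^ 2 * (3 * n - 6) ^ 2 -
      3 * n * ((31 / 10) ^ 4 * n + (12 * (31 / 10) ^ 2 + 16 * (31 / 10) - 8) * (3 * n - 6)) -
      n * ((24 * 18 + 288) * n - 144 * (18 + 4)) +
      t * (n * (72 * (31 / 10) + 207 - 21 * 18) - 288 * ((31 / 10) + 1)) + 36 * t ^ 2 := by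
  have h4 : 0 ≤ t * (n - 324) := mul_nonneg h3 (by linarith)
  have h7 : 0 ≤ (n - 324) * (n - 324) := mul_nonneg (by linarith) (by linarith)
  exact ⟨by linarith, by nlinarith [sq_nonneg t]⟩

end Pool.Agent.SqE
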