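import Mathlib
import Pool.Agent.Lib_helper37.SqE.Bound

/-!
# Positive square energy: the vertices of degree three
-/

set_option autoImplicit false

namespace Pool.Agent.SqE

open Finset

variable {V : Type} [Fintype V] [DecidableEq V] (G : SimpleGraph V) [DecidableRel G.Adj]

/-- the number of neighbours of degree three -/
def kk (u : V) : ℕ := ((T3 G).filter (fun x => G.Adj u x)).card

theorem kk_eq (u : V) : kk G u = ((nb G u).filter (fun x => x ∈ T3 G)).card := by
  unfold kk
  congr 1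
  ext x
  simp [mem_nb, and_comm]

theorem kk_T3 (h : Tri G) (hn : 5 ≤ Fintype.card V) {u : V} (hu : dg G u = 3) : kk G u = 0 := by
  rw [kk, Finset.card_eq_zero, Finset.filter_eq_empty_iff]
  intro x hx
  exact indep G h hn hu ((mem_T3 G x).mp hx)

theorem sum_kk : ∑ u, kk G u = 3 * (T3 G).card := by
  rw [← sum_T3]
  simp only [kk, Finset.card_filter]
  rw [Finset.sum_comm]
  apply Finset.sum_congr rfl
  intro x _
  rw [dg, nb, Finset.card_filter]
  apply Finset.sum_congr rfl
  intro u _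
  by_cases h : G.Adj u x
  · simp [h, h.symm]
  · have h' : ¬ G.Adj x u := fun h' => h h'.symm
    simp [h, h']

/-- at least three neighbours are not of degree three -/
theorem kk_le (h : Tri G) (hn : 8 ≤ Fintype.card V) (u : V) : kk G u + 3 ≤ dg G u := by
  by_cases hu : dg G u = 3
  · rw [kk_T3 G h (by omega) hu, hu]
  · have hu' : u ∉ T3 G := by rw [mem_T3]; exact hu
    have hc := card_T3 G h (by omega)
    have h1 := pairs_compl G (insert u (T3 G))
    have h2 := h.sparse (insert u (T3 G))ᶜ (by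
      rw [Finset.card_compl, Finset.card_insert_of_notMem hu']; omega)
    rw [Finset.card_compl, Finset.card_insert_of_notMem hu'] at h2
    rw [Finset.sum_insert hu', sum_T3] at h1
    have h3 : 2 * kk G u ≤ pairs G (insert u (T3 G)) (insert u (T3 G)) := by
      rw [pairs_eq, Finset.sum_insert hu']
      have h4 : kk G u ≤ ((insert u (T3 G)).filter (fun t => G.Adj u t)).card := by
        apply Finset.card_le_card
        intro x hx
        rw [Finset.mem_filter] at hx ⊢
        exact ⟨Finset.mem_insert_of_mem hx.1, hx.2⟩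
      have h5 : kk G u ≤ ∑ s ∈ T3 G, ((insert u (T3 G)).filter (fun t => G.Adj s t)).card := by
        rw [kk, Finset.card_filter]
        apply Finset.sum_le_sum
        intro x _
        split_ifs with h6
        · rw [Nat.succ_le_iff, Finset.card_pos]
          exact ⟨u, Finset.mem_filter.mpr ⟨Finset.mem_insert_self _ _, h6.symm⟩⟩
        · exact Nat.zero_le _
      omega
    have h7 := h.edges
    omega

/-- vertices at distance two have no common neighbour of degree three -/
theorem no_T3 (h : Tri G) (hn : 4 ≤ Fintype.card V) {u w x : V} (hx : x ∈ T3 G)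
    (hux : G.Adj u x) (hwx : G.Adj w x) (hne : w ≠ u) : G.Adj u w := by
  have h1 := two_cn G h hn hux.symm
  have h2 : dg G x = 3 := (mem_T3 G x).mp hx
  by_contra hcon
  have h3 : cn G x u ≤ (((nb G x).erase u).erase w).card := by
    apply Finset.card_le_card
    intro z hz
    rw [Finset.mem_filter] at hz
    rw [Finset.mem_erase, Finset.mem_erase, mem_nb]
    refine ⟨fun hzw => hcon (hzw ▸ hz.2.2), fun hzu => (hzu ▸ hz.2.2).ne rfl, hz.2.1⟩
  have h4 : u ∈ nb G x := (mem_nb G x u).mpr hux.symm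
  have h5 : w ∈ (nb G x).erase u := Finset.mem_erase.mpr ⟨hne, (mem_nb G x w).mpr hwx.symm⟩
  rw [Finset.card_erase_of_mem h5, Finset.card_erase_of_mem h4] at h3
  unfold dg at h2
  omega

/-- the neighbours not of degree three -/
def nb' (u : V) : Finset V := (nb G u).filter (fun x => x ∉ T3 G)

theorem card_nb' (u : V) : (nb' G u).card + kk G u = dg G u := by
  rw [kk_eq, nb', dg, add_comm]
  exact Finset.card_filter_add_card_filter_not (s := nb G u) (fun x => x ∈ T3 G)

theorem cn_nb' (h : Tri G) (hn : 4 ≤ Fintype.card V) {u w : V} (hw : w ∈ RR G u) :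
    cn G u w = ((nb' G u).filter (fun t => G.Adj w t)).card := by
  rw [RR, Finset.mem_filter] at hw
  unfold cn nb'
  congr 1
  ext x
  simp only [Finset.mem_filter, Finset.mem_univ, true_and, mem_nb]
  constructor
  · rintro ⟨h1, h2⟩
    exact ⟨⟨h1, fun hx => hw.2.2 (no_T3 G h hn hx h1 h2 hw.2.1)⟩, h2⟩
  · rintro ⟨⟨h1, _⟩, h2⟩
    exact ⟨h1, h2⟩

theorem nonadj' (h : Tri G) (hn : 8 ≤ Fintype.card V) (u : V) :
    ∑ w ∈ (RR G u).filter (fun w => 3 ≤ cn G u w), ((cn G u w : ℝ) - 2) ≤
      ((nb' G u).card : ℝ) - 2 := by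
  obtain ⟨W, hW⟩ : ∃ W, W = (RR G u).filter (fun w => 3 ≤ cn G u w) := ⟨_, rfl⟩
  rw [← hW]
  have hWR' : ∀ w ∈ W, w ∈ RR G u := by
    intro w hw
    rw [hW, Finset.mem_filter] at hw
    exact hw.1
  have hWR : ∀ w ∈ W, w ≠ u ∧ ¬ G.Adj u w := by
    intro w hw
    have := hWR' w hw
    rw [RR, Finset.mem_filter] at this
    exact this.2
  have huW : u ∉ W := fun hu => (hWR u hu).1 rfl
  have hd : Disjoint (insert u W) (nb' G u) := by
    rw [Finset.disjoint_left]
    intro x hx hx'
    rw [nb', Finset.mem_filter, mem_nb] at hx'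
    rw [Finset.mem_insert] at hx
    rcases hx with hx | hx
    · rw [hx] at hx'; exact hx'.1.ne rfl
    · exact (hWR x hx).2 hx'.1
  have h3 := kk_le G h hn u
  have h4 := card_nb' G u
  have h1 := h.bip (insert u W) (nb' G u) hd (by omega)
  rw [pairs_eq, Finset.sum_insert huW, Finset.card_insert_of_notMem huW] at h1
  have h5 : ((nb' G u).filter (fun t => G.Adj u t)).card = (nb' G u).card := by
    congr 1
    rw [Finset.filter_eq_self]
    intro x hx
    rw [nb', Finset.mem_filter, mem_nb] at hx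
    exact hx.1
  have h6 : ∑ w ∈ W, ((nb' G u).filter (fun t => G.Adj w t)).card = ∑ w ∈ W, cn G u w := by
    apply Finset.sum_congr rfl
    intro w hw
    rw [cn_nb' G h (by omega) (hWR' w hw)]
  rw [h5, h6] at h1
  have h7 : (((nb' G u).card : ℝ) + ∑ w ∈ W, (cn G u w : ℝ)) + 4 ≤
      2 * ((W.card : ℝ) + 1 + (nb' G u).card) := by
    exact_mod_cast h1
  rw [Finset.sum_sub_distrib, Finset.sum_const, nsmul_eq_mul]
  linarith

theorem row_bound' (h : Tri G) (hn : 8 ≤ Fintype.card V) (u : V) :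
    ∑ w, (cn G u w : ℝ) ^ 2 ≤ ((dg G u : ℝ) - 1) * ∑ w ∈ nb G u, (cn G u w : ℝ) -
      2 * dg G u + 2 * ∑ x ∈ nb G u, (dg G x : ℝ) -
        (kk G u : ℝ) * (2 * dg G u - kk G u - 2) := by
  have hd3 : (3 : ℝ) ≤ dg G u := by exact_mod_cast deg_ge G h (by omega) u
  have hk : ((nb' G u).card : ℝ) + kk G u = dg G u := by exact_mod_cast card_nb' G u
  have h1 := split G u (fun w => (cn G u w : ℝ) ^ 2)
  have h2 := split G u (fun w => (cn G u w : ℝ))
  have h3 : ∑ w, (cn G u w : ℝ) = ∑ x ∈ nb G u, (dg G x : ℝ) := by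
    exact_mod_cast row_sum G u
  rw [h3] at h2
  simp only [cn_self] at h1 h2
  have h4 : ∑ w ∈ nb G u, (cn G u w : ℝ) ^ 2 ≤
      ∑ w ∈ nb G u, (((dg G u : ℝ) + 1) * cn G u w - 2 * ((dg G u : ℝ) - 1)) := by
    apply Finset.sum_le_sum
    intro w hw
    have h5 := (mem_nb G u w).mp hw
    have h6 : (2 : ℝ) ≤ cn G u w := by exact_mod_cast two_cn G h (by omega) h5
    have h7 : (cn G u w : ℝ) + 1 ≤ dg G u := by exact_mod_cast cn_lt G h5
    nlinarith [mul_nonneg (sub_nonneg.mpr h6) (sub_nonneg.mpr h7)]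
  rw [Finset.sum_sub_distrib, ← Finset.mul_sum, Finset.sum_const, nsmul_eq_mul] at h4
  have hcard : ((nb G u).card : ℝ) = dg G u := rfl
  rw [hcard] at h4
  obtain ⟨e, he⟩ : ∃ e : ℝ, e = ((nb' G u).card : ℝ) := ⟨_, rfl⟩
  have he0 : 0 ≤ e := by rw [he]; exact Nat.cast_nonneg _
  have h8 : ∑ w ∈ RR G u, (cn G u w : ℝ) ^ 2 ≤ ∑ w ∈ RR G u, (2 * (cn G u w : ℝ) +
      if 3 ≤ cn G u w then e * ((cn G u w : ℝ) - 2) else 0) := by
    apply Finset.sum_le_sum
    intro w hw
    split_ifs with h9
    · have h10 : (3 : ℝ) ≤ cn G u w := by exact_mod_cast h9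
      have h11 : (cn G u w : ℝ) ≤ e := by
        rw [he, cn_nb' G h (by omega) hw]
        exact_mod_cast Finset.card_filter_le _ _
      nlinarith [mul_nonneg (sub_nonneg.mpr h11) (by linarith : (0 : ℝ) ≤ (cn G u w : ℝ) - 2)]
    · have h10 : (cn G u w : ℝ) ≤ 2 := by exact_mod_cast (by omega : cn G u w ≤ 2)
      have h11 : (0 : ℝ) ≤ cn G u w := Nat.cast_nonneg _
      nlinarith [mul_nonneg h11 (sub_nonneg.mpr h10)]
  rw [Finset.sum_add_distrib, ← Finset.mul_sum, ← Finset.sum_filter, ← Finset.mul_sum] at h8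
  have h12 := nonadj' G h hn u
  rw [← he] at h12 hk
  have h13 := mul_le_mul_of_nonneg_left h12 he0
  have hke : (kk G u : ℝ) = dg G u - e := by linarith
  rw [h1, hke]
  nlinarith

theorem C1_ge' (h : Tri G) (hn : 8 ≤ Fintype.card V) (u : V) :
    2 * (dg G u : ℝ) + 2 * (kk G u : ℝ) ≤ ∑ w ∈ nb G u, (cn G u w : ℝ) := by
  have h1 : ∑ w ∈ nb G u, (2 + ((T3 G).filter (fun x => G.Adj u x ∧ G.Adj w x)).card) ≤
      ∑ w ∈ nb G u, cn G u w := by
    apply Finset.sum_le_sum
    intro w hw
    exact cn_ge G h hn ((mem_nb G u w).mp hw)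
  have h2 : 2 * kk G u ≤
      ∑ w ∈ nb G u, ((T3 G).filter (fun x => G.Adj u x ∧ G.Adj w x)).card := by
    have h3 : ∑ w ∈ nb G u, ((T3 G).filter (fun x => G.Adj u x ∧ G.Adj w x)).card =
        ∑ x ∈ (T3 G).filter (fun x => G.Adj u x), cn G u x := by
      simp only [Finset.card_filter]
      rw [Finset.sum_comm, Finset.sum_filter]
      apply Finset.sum_congr rfl
      intro x _
      by_cases hux : G.Adj u x
      · rw [if_pos hux, cn, Finset.card_filter, nb, Finset.sum_filter]
        apply Finset.sum_congr rfl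
        intro w _
        by_cases h5 : G.Adj u w <;> by_cases h6 : G.Adj w x <;>
          simp [hux, h5, h6, G.adj_comm x w]
      · rw [if_neg hux]
        apply Finset.sum_eq_zero
        intro w _
        simp [hux]
    rw [h3]
    have h4 : ∑ x ∈ (T3 G).filter (fun x => G.Adj u x), 2 ≤
        ∑ x ∈ (T3 G).filter (fun x => G.Adj u x), cn G u x := by
      apply Finset.sum_le_sum
      intro x hx
      exact two_cn G h (by omega) (Finset.mem_filter.mp hx).2
    rw [Finset.sum_const, smul_eq_mul, mul_comm] at h4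
    exact h4
  rw [Finset.sum_add_distrib, Finset.sum_const, smul_eq_mul, mul_comm] at h1
  have h5 : 2 * dg G u + 2 * kk G u ≤ ∑ w ∈ nb G u, cn G u w := by
    have h6 : (nb G u).card = dg G u := rfl
    rw [h6] at h1
    omega
  exact_mod_cast h5

end Pool.Agent.SqE
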