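import Mathlib
import Pool.Agent.Lib_helper37.SqE.Three
import Pool.Agent.Lib_helper37.SqE.Rows

/-!
# Positive square energy: the three results
-/

set_option autoImplicit false

namespace Pool.Agent.SqE

open Finset

variable {V : Type} [Fintype V] [DecidableEq V] (G : SimpleGraph V) [DecidableRel G.Adj]

theorem TT_cast : ((G.adjMatrix ℝ) ^ 3).trace = (TT G : ℝ) := by
  rw [tr3, TT]; push_cast; rfl

theorem tr2_edges : ((G.adjMatrix ℝ) ^ 2).trace = 2 * (G.edgeFinset.card : ℝ) := by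
  rw [tr2]; exact_mod_cast sum_dg G

theorem edges_real (h : Tri G) : (G.edgeFinset.card : ℝ) = 3 * (Fintype.card V : ℝ) - 6 := by
  have h1 := h.edges
  have h2 : (G.edgeFinset.card : ℝ) + 6 = 3 * (Fintype.card V : ℝ) := by exact_mod_cast h1
  linarith

theorem q_nonneg : 0 ≤ ((G.adjMatrix ℝ) ^ 4).trace := by
  rw [tr4]; positivity

/-- the sum of `row_bound` -/
theorem q_le (h : Tri G) (hn : 4 ≤ Fintype.card V) :
    ((G.adjMatrix ℝ) ^ 4).trace ≤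
      ∑ u, ((dg G u : ℝ) - 1) * ∑ w ∈ nb G u, (cn G u w : ℝ) - 4 * (G.edgeFinset.card : ℝ) +
        2 * ∑ u, (dg G u : ℝ) ^ 2 := by
  rw [tr4]
  have h1 := Finset.sum_le_sum (fun u (_ : u ∈ (univ : Finset V)) => row_bound G h hn u)
  rw [Finset.sum_add_distrib, Finset.sum_sub_distrib, ← Finset.mul_sum, ← Finset.mul_sum] at h1
  have h2 : ∑ u, (dg G u : ℝ) = 2 * (G.edgeFinset.card : ℝ) := by exact_mod_cast sum_dg G
  have h3 : ∑ u, ∑ x ∈ nb G u, (dg G x : ℝ) = ∑ u, (dg G u : ℝ) ^ 2 := by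
    exact_mod_cast sum_nb_dg G
  rw [h2, h3] at h1
  linarith

theorem C1_ge (h : Tri G) (hn : 4 ≤ Fintype.card V) (u : V) :
    2 * (dg G u : ℝ) ≤ ∑ w ∈ nb G u, (cn G u w : ℝ) := by
  have h1 : ∑ w ∈ nb G u, 2 ≤ ∑ w ∈ nb G u, cn G u w := by
    apply Finset.sum_le_sum
    intro w hw
    exact two_cn G h hn ((mem_nb G u w).mp hw)
  rw [Finset.sum_const, smul_eq_mul, mul_comm] at h1
  exact_mod_cast h1

theorem C1_le (h : Tri G) (hn : 4 ≤ Fintype.card V) (u : V) :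
    ∑ w ∈ nb G u, (cn G u w : ℝ) ≤ 4 * (dg G u : ℝ) - 6 := by
  have hu : u ∉ nb G u := by rw [mem_nb]; exact G.loopless.irrefl u
  have h3 := deg_ge G h hn u
  have h1 := h.sparse (insert u (nb G u)) (by
    rw [Finset.card_insert_of_notMem hu]; unfold dg at h3; omega)
  rw [pairs_eq, Finset.sum_insert hu, Finset.card_insert_of_notMem hu] at h1
  have h4 : dg G u ≤ ((insert u (nb G u)).filter (fun t => G.Adj u t)).card := by
    rw [dg]
    apply Finset.card_le_card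
    intro x hx
    rw [Finset.mem_filter, Finset.mem_insert]
    exact ⟨Or.inr hx, (mem_nb G u x).mp hx⟩
  have h5 : ∑ w ∈ nb G u, (cn G u w + 1) ≤
      ∑ w ∈ nb G u, ((insert u (nb G u)).filter (fun t => G.Adj w t)).card := by
    apply Finset.sum_le_sum
    intro w hw
    have hwu : G.Adj w u := ((mem_nb G u w).mp hw).symm
    rw [Finset.filter_insert, if_pos hwu, Finset.card_insert_of_notMem (by
      rw [Finset.mem_filter]; exact fun hx => hu hx.1)]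
    apply Nat.add_le_add_right
    rw [nb, Finset.filter_filter, cn]
  rw [Finset.sum_add_distrib, Finset.sum_const, smul_eq_mul, mul_one] at h5
  have h6 : (nb G u).card = dg G u := rfl
  rw [h6] at h1 h5
  have h7 : ∑ w ∈ nb G u, cn G u w + 6 ≤ 4 * dg G u := by omega
  have h8 : ∑ w ∈ nb G u, (cn G u w : ℝ) + 6 ≤ 4 * (dg G u : ℝ) := by exact_mod_cast h7
  linarith

theorem sum_C1 : ∑ u, ∑ w ∈ nb G u, (cn G u w : ℝ) = (TT G : ℝ) := by
  rw [TT]; push_cast; rfl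

/-- few closed walks of length four -/
theorem walks (h : Tri G) (hn : 8 ≤ Fintype.card V)
    (hq : ((G.adjMatrix ℝ) ^ 4).trace ≤ 219 * (Fintype.card V : ℝ) - 2136) :
    3 * (Fintype.card V : ℝ) ≤ sPlus G := by
  have hm := edges_real G h
  have hT : 4 * (G.edgeFinset.card : ℝ) + 6 * ((T3 G).card : ℝ) ≤ (TT G : ℝ) := by
    exact_mod_cast TT_ge G h hn
  have hn' : (8 : ℝ) ≤ Fintype.card V := by exact_mod_cast hn
  have h3 : (0 : ℝ) ≤ ((T3 G).card : ℝ) := Nat.cast_nonneg _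
  obtain ⟨n, hnn⟩ : ∃ n : ℝ, n = Fintype.card V := ⟨_, rfl⟩
  obtain ⟨y, hy⟩ : ∃ y : ℝ, (TT G : ℝ) = 4 * (G.edgeFinset.card : ℝ) + y :=
    ⟨(TT G : ℝ) - 4 * (G.edgeFinset.card : ℝ), by ring⟩
  obtain ⟨q, hqq⟩ : ∃ q : ℝ, q = ((G.adjMatrix ℝ) ^ 4).trace := ⟨_, rfl⟩
  rw [← hnn] at hm hn' hq ⊢
  rw [← hqq] at hq
  refine cert G 3 n (G.edgeFinset.card : ℝ) (TT G : ℝ) q (by norm_num) (by linarith) hnn
    (Nat.cast_nonneg _) (Nat.cast_nonneg _) (by rw [hqq]; exact q_nonneg G) (tr2_edges G)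
    (TT_cast G) hqq.symm ?_
  have hy0 : 0 ≤ y := by linarith
  rw [hy, hm]
  have h4 : 3 * n * q ≤ 3 * n * (219 * n - 2136) :=
    mul_le_mul_of_nonneg_left hq (by linarith)
  have h5 : 0 ≤ y * (n - 8) := mul_nonneg hy0 (by linarith)
  nlinarith [mul_nonneg hy0 hy0]

/-- the sum of `row_bound'` -/
theorem q_le' (h : Tri G) (hn : 8 ≤ Fintype.card V) :
    ((G.adjMatrix ℝ) ^ 4).trace ≤
      ∑ u, (((dg G u : ℝ) - 1) * ∑ w ∈ nb G u, (cn G u w : ℝ) - 2 * dg G u -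
        (kk G u : ℝ) * (2 * dg G u - kk G u - 2) + 2 * (dg G u : ℝ) ^ 2) := by
  rw [tr4]
  have h1 := Finset.sum_le_sum (fun u (_ : u ∈ (univ : Finset V)) => row_bound' G h hn u)
  have h3 : ∑ u, 2 * ∑ x ∈ nb G u, (dg G x : ℝ) = ∑ u, 2 * (dg G u : ℝ) ^ 2 := by
    rw [← Finset.mul_sum, ← Finset.mul_sum]
    congr 1
    exact_mod_cast sum_nb_dg G
  refine h1.trans (le_of_eq ?_)
  simp only [Finset.sum_sub_distrib, Finset.sum_add_distrib]
  rw [h3]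
  ring

/-- bounded degree -/
theorem bounded (D s N0 : ℝ) (hs : 0 < s)
    (hrow : ∀ n t : ℝ, N0 ≤ n → 0 ≤ t → 3 * t ≤ 2 * n - 4 →
      48 * (s + 1) ≤ n * (12 * s + 27 - 3 * D) ∧
      0 ≤ 16 * (s + 1) ^ 2 * (3 * n - 6) ^ 2 -
        3 * n * (s ^ 4 * n + (12 * s ^ 2 + 16 * s - 8) * (3 * n - 6)) -
        n * ((24 * D + 288) * n - 144 * (D + 4)) +
        t * (n * (72 * s + 207 - 21 * D) - 288 * (s + 1)) + 36 * t ^ 2)
    (h : Tri G) (hn : 8 ≤ Fintype.card V) (hN : N0 ≤ (Fintype.card V : ℝ))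
    (hD : ∀ v, (G.degree v : ℝ) ≤ D) : 3 * (Fintype.card V : ℝ) ≤ sPlus G := by
  have hm := edges_real G h
  have hn' : (8 : ℝ) ≤ Fintype.card V := by exact_mod_cast hn
  have h3 : (0 : ℝ) ≤ ((T3 G).card : ℝ) := Nat.cast_nonneg _
  have h3' : 3 * ((T3 G).card : ℝ) + 4 ≤ 2 * (Fintype.card V : ℝ) := by
    exact_mod_cast card_T3 G h (by omega)
  obtain ⟨n, hnn⟩ : ∃ n : ℝ, n = Fintype.card V := ⟨_, rfl⟩
  obtain ⟨t, ht⟩ : ∃ t : ℝ, t = ((T3 G).card : ℝ) := ⟨_, rfl⟩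
  obtain ⟨m, hmm⟩ : ∃ m : ℝ, m = (G.edgeFinset.card : ℝ) := ⟨_, rfl⟩
  obtain ⟨T, hTT⟩ : ∃ T : ℝ, T = (TT G : ℝ) := ⟨_, rfl⟩
  obtain ⟨q, hqq⟩ : ∃ q : ℝ, q = ((G.adjMatrix ℝ) ^ 4).trace := ⟨_, rfl⟩
  rw [← hnn] at hm hn' h3' hN ⊢
  rw [← ht] at h3 h3'
  rw [← hmm] at hm
  obtain ⟨hrow1, hrow2⟩ := hrow n t hN h3 (by linarith)
  have hDd : ∀ v, (dg G v : ℝ) ≤ D := by
    intro v
    rw [dg_eq]
    exact hD v
  have h2m : ∑ u, (dg G u : ℝ) = 2 * m := by rw [hmm]; exact_mod_cast sum_dg G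
  have hk3 : ∑ u, (kk G u : ℝ) = 3 * t := by rw [ht]; exact_mod_cast sum_kk G
  have hC : ∑ u, ∑ w ∈ nb G u, (cn G u w : ℝ) = T := by rw [hTT]; exact sum_C1 G
  have hTy : 4 * m + 6 * t ≤ T := by
    rw [hmm, ht, hTT]; exact_mod_cast TT_ge G h hn
  have hq := q_le' G h hn
  rw [← hqq] at hq
  have hq0 : 0 ≤ q := by rw [hqq]; exact q_nonneg G
  refine cert G s n m T q hs (by linarith) hnn (by rw [hmm]; exact Nat.cast_nonneg _)
    (by rw [hTT]; exact Nat.cast_nonneg _) hq0 (by rw [hmm]; exact tr2_edges G)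
    (by rw [hTT]; exact TT_cast G) hqq.symm ?_
  -- the inequality for each vertex
  have hu : ∀ u ∈ (univ : Finset V),
      3 * n * (((dg G u : ℝ) - 1) * ∑ w ∈ nb G u, (cn G u w : ℝ) - 2 * dg G u -
        (kk G u : ℝ) * (2 * dg G u - kk G u - 2) + 2 * (dg G u : ℝ) ^ 2) +
        (12 * n * s - 8 * (s + 1) * m) * ((∑ w ∈ nb G u, (cn G u w : ℝ)) - 2 * dg G u) ≤
      n * ((12 * (D + 4) - 12) * (dg G u : ℝ) - 48 * D + (3 * D - 9) * (kk G u : ℝ) +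
        (if dg G u = 3 then 12 * (D - 3) else 0)) -
        (kk G u : ℝ) * (n * (24 * s + 48) - 96 * (s + 1)) := by
    intro u _
    obtain ⟨c, hc⟩ : ∃ c : ℝ, c = ∑ w ∈ nb G u, (cn G u w : ℝ) := ⟨_, rfl⟩
    obtain ⟨d, hd⟩ : ∃ d : ℝ, d = (dg G u : ℝ) := ⟨_, rfl⟩
    obtain ⟨k, hk⟩ : ∃ k : ℝ, k = (kk G u : ℝ) := ⟨_, rfl⟩
    have h4 := C1_ge' G h hn u
    have h5 := hDd u
    have h6 : (kk G u : ℝ) + 3 ≤ (dg G u : ℝ) := by exact_mod_cast kk_le G h hn u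
    have h7 : (0 : ℝ) ≤ (kk G u : ℝ) := Nat.cast_nonneg _
    -- the squares
    have h8 : 12 * (dg G u : ℝ) ^ 2 + 3 * (kk G u : ℝ) ^ 2 ≤
        12 * (D + 4) * (dg G u : ℝ) - 48 * D + (3 * D - 9) * (kk G u : ℝ) +
        (if dg G u = 3 then 12 * (D - 3) else 0) := by
      split_ifs with h9
      · rw [kk_T3 G h (by omega) h9, h9]
        push_cast
        linarith
      · have h10 := deg_ge G h (by omega) u
        have h11 : (4 : ℝ) ≤ dg G u := by exact_mod_cast (by omega : 4 ≤ dg G u)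
        have h12 := mul_nonneg (sub_nonneg.mpr h11) (sub_nonneg.mpr h5)
        have h13 : (kk G u : ℝ) * (kk G u : ℝ) ≤ (kk G u : ℝ) * (D - 3) :=
          mul_le_mul_of_nonneg_left (by linarith) h7
        nlinarith
    obtain ⟨I, hI⟩ : ∃ I : ℝ, I = (if dg G u = 3 then 12 * (D - 3) else 0) := ⟨_, rfl⟩
    rw [← hc] at h4 ⊢
    rw [← hI] at h8 ⊢
    rw [← hd, ← hk] at h4 h6 h8 ⊢
    rw [← hd] at h5
    rw [← hk] at h7
    have h9 : 0 ≤ n * (12 * s + 27 - 3 * d) - 48 * (s + 1) := by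
      have : n * (12 * s + 27 - 3 * D) ≤ n * (12 * s + 27 - 3 * d) :=
        mul_le_mul_of_nonneg_left (by linarith) (by linarith)
      linarith
    have h10 := mul_nonneg h9 (sub_nonneg.mpr h4)
    have h11 := mul_le_mul_of_nonneg_left h8 (by linarith : (0 : ℝ) ≤ n)
    rw [hm]
    nlinarith
  have hsum := Finset.sum_le_sum hu
  have hlin1 : ∀ (F E : V → ℝ) (a b : ℝ), ∑ u, (a * F u + b * (E u - 2 * (dg G u : ℝ))) =
      a * ∑ u, F u + b * (∑ u, E u - 2 * ∑ u, (dg G u : ℝ)) := by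
    intro F E a b
    rw [Finset.sum_add_distrib, ← Finset.mul_sum, ← Finset.mul_sum, Finset.sum_sub_distrib,
      ← Finset.mul_sum]
  have hlin2 : ∀ (a b c e f g : ℝ), ∑ u, (a * (b * (dg G u : ℝ) - c + e * (kk G u : ℝ) +
      (if dg G u = 3 then f else 0)) - (kk G u : ℝ) * g) =
      a * (b * (2 * m) - n * c + e * (3 * t) + t * f) - 3 * t * g := by
    intro a b c e f g
    have h6 : ((univ.filter (fun u => dg G u = 3)).card : ℝ) = t := by rw [ht]; rfl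
    rw [Finset.sum_sub_distrib, ← Finset.mul_sum, Finset.sum_add_distrib, Finset.sum_add_distrib,
      Finset.sum_sub_distrib, ← Finset.mul_sum, ← Finset.mul_sum, ← Finset.sum_filter,
      Finset.sum_const, Finset.sum_const, ← Finset.sum_mul, h2m, hk3, nsmul_eq_mul, nsmul_eq_mul,
      Finset.card_univ, ← hnn, h6]
  rw [hlin1, hlin2, hC, h2m] at hsum
  have h7 := mul_le_mul_of_nonneg_left hq (by linarith : (0 : ℝ) ≤ 3 * n)
  have h8 : 0 ≤ (T - 4 * m - 6 * t) * (T - 4 * m + 6 * t) :=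
    mul_nonneg (by linarith) (by linarith)
  have h9 := h7.trans (by linarith [hsum] : _ ≤ n * ((12 * (D + 4) - 12) * (2 * m) - n * (48 * D) +
    (3 * D - 9) * (3 * t) + t * (12 * (D - 3))) - 3 * t * (n * (24 * s + 48) - 96 * (s + 1)) -
      (12 * n * s - 8 * (s + 1) * m) * (T - 2 * (2 * m)))
  subst hm
  nlinarith

/-- few vertices of large degree -/
theorem squares (h : Tri G) (hn : 64 ≤ Fintype.card V)
    (hs : 2 * ∑ v, (2 * G.degree v ^ 2 + (G.degree v - 3) * (G.degree v - 20)) + 2184 ≤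
      243 * Fintype.card V) : 3 * (Fintype.card V : ℝ) ≤ sPlus G := by
  have hm := edges_real G h
  have hT : 4 * (G.edgeFinset.card : ℝ) + 6 * ((T3 G).card : ℝ) ≤ (TT G : ℝ) := by
    exact_mod_cast TT_ge G h (by omega)
  have hn' : (64 : ℝ) ≤ Fintype.card V := by exact_mod_cast hn
  have h3 : (0 : ℝ) ≤ ((T3 G).card : ℝ) := Nat.cast_nonneg _
  obtain ⟨y, hy⟩ : ∃ y : ℝ, (TT G : ℝ) = 4 * (G.edgeFinset.card : ℝ) + y :=
    ⟨(TT G : ℝ) - 4 * (G.edgeFinset.card : ℝ), by ring⟩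
  have hy0 : 0 ≤ y := by linarith
  have h2m : ∑ u, (dg G u : ℝ) = 2 * (G.edgeFinset.card : ℝ) := by exact_mod_cast sum_dg G
  obtain ⟨b, hb⟩ : ∃ b : V → ℕ, b = fun u => (dg G u - 3) * (dg G u - 20) := ⟨_, rfl⟩
  have hsr : 4 * ∑ u, (dg G u : ℝ) ^ 2 + 2 * ∑ u, (b u : ℝ) + 2184 ≤
      243 * (Fintype.card V : ℝ) := by
    have h4 : 2 * ∑ v, (2 * dg G v ^ 2 + b v) + 2184 ≤ 243 * Fintype.card V := by
      rw [hb]
      simp only [dg_eq]
      exact hs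
    have h5 : 2 * ∑ v, (2 * (dg G v : ℝ) ^ 2 + (b v : ℝ)) + 2184 ≤
        243 * (Fintype.card V : ℝ) := by exact_mod_cast h4
    rw [Finset.sum_add_distrib, ← Finset.mul_sum] at h5
    linarith
  have hq := q_le G h (by omega)
  have hZ : ∑ u, ((dg G u : ℝ) - 1) * ∑ w ∈ nb G u, (cn G u w : ℝ) ≤
      2 * ∑ u, (dg G u : ℝ) ^ 2 - 4 * (G.edgeFinset.card : ℝ) + 19 * y +
        2 * ∑ u, (b u : ℝ) := by
    have h4 : ∀ u ∈ (univ : Finset V), ((dg G u : ℝ) - 1) * ∑ w ∈ nb G u, (cn G u w : ℝ) ≤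
        2 * (dg G u : ℝ) ^ 2 - 2 * (dg G u : ℝ) +
          19 * ((∑ w ∈ nb G u, (cn G u w : ℝ)) - 2 * dg G u) + 2 * (b u : ℝ) := by
      intro u _
      have h5 := C1_ge G h (by omega) u
      have h6 := C1_le G h (by omega) u
      obtain ⟨C, hC⟩ : ∃ C : ℝ, C = ∑ w ∈ nb G u, (cn G u w : ℝ) := ⟨_, rfl⟩
      rw [← hC] at h5 h6 ⊢
      by_cases h7 : dg G u ≤ 20
      · have h8 : b u = 0 := by rw [hb]; simp only [Nat.sub_eq_zero_of_le h7, mul_zero]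
        have h9 : (dg G u : ℝ) ≤ 20 := by exact_mod_cast h7
        rw [h8, Nat.cast_zero]
        nlinarith [mul_nonneg (sub_nonneg.mpr h5) (sub_nonneg.mpr h9)]
      · have h9 : (20 : ℝ) ≤ (dg G u : ℝ) := by exact_mod_cast (by omega : 20 ≤ dg G u)
        have h8 : (b u : ℝ) = ((dg G u : ℝ) - 3) * ((dg G u : ℝ) - 20) := by
          rw [hb]
          push_cast [Nat.cast_sub (by omega : 3 ≤ dg G u), Nat.cast_sub (by omega : 20 ≤ dg G u)]
          ring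
        rw [h8]
        nlinarith [mul_nonneg (sub_nonneg.mpr h6) (sub_nonneg.mpr h9)]
    have h5 := Finset.sum_le_sum h4
    rw [Finset.sum_add_distrib, Finset.sum_add_distrib, Finset.sum_sub_distrib, ← Finset.mul_sum,
      ← Finset.mul_sum, ← Finset.mul_sum, ← Finset.mul_sum, Finset.sum_sub_distrib,
      ← Finset.mul_sum, h2m, sum_C1, hy] at h5
    linarith
  obtain ⟨q, hqq⟩ : ∃ q : ℝ, q = ((G.adjMatrix ℝ) ^ 4).trace := ⟨_, rfl⟩
  rw [← hqq] at hq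
  obtain ⟨n, hnn⟩ : ∃ n : ℝ, n = Fintype.card V := ⟨_, rfl⟩
  rw [← hnn] at hm hn' hsr ⊢
  have hq2 : q ≤ 219 * n - 2136 + 19 * y := by linarith
  refine cert G 3 n (G.edgeFinset.card : ℝ) (TT G : ℝ) q (by norm_num) (by linarith) hnn
    (Nat.cast_nonneg _) (Nat.cast_nonneg _) (by rw [hqq]; exact q_nonneg G) (tr2_edges G)
    (TT_cast G) hqq.symm ?_
  rw [hy, hm]
  have h4 : 3 * n * q ≤ 3 * n * (219 * n - 2136 + 19 * y) :=
    mul_le_mul_of_nonneg_left hq2 (by linarith)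
  have h5 : 0 ≤ y * (n - 64) := mul_nonneg hy0 (by linarith)
  nlinarith [mul_nonneg hy0 hy0]

end Pool.Agent.SqE
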